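import Mathlib
import Pool.Agent.PAC.Main

set_option autoImplicit false

namespace Pool.Agent.Results.MP_d52dcb_lc.ScatteredNotPAC

/-- the finite binary string `σ` is an initial segment of the infinite binary sequence `P` -/
def IsInit (σ : List Bool) (P : ℕ → Bool) : Prop := ∀ i : Fin σ.length, σ.get i = P i

/-- `P` is a path on `T` -/
def IsPath (T : Set (List Bool)) (P : ℕ → Bool) : Prop := ∀ σ : List Bool, IsInit σ P → σ ∈ T

/-- a PAC tree: a computable binary tree without dead ends all of whose paths are computable -/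
structure IsPAC (T : Set (List Bool)) : Prop where
  /-- closed under initial segments -/
  tree : ∀ σ τ : List Bool, τ ∈ T → σ <+: τ → σ ∈ T
  /-- computable -/
  comp : ComputablePred (fun σ : List Bool => σ ∈ T)
  /-- no dead ends -/
  noDeadEnd : ∀ σ ∈ T, σ ++ [false] ∈ T ∨ σ ++ [true] ∈ T
  /-- every path is computable -/
  paths : ∀ P : ℕ → Bool, IsPath T P → Computable P

/-- the set of the isolated paths on `T` -/
def isolatedPaths (T : Set (List Bool)) : Set (ℕ → Bool) :=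
  {P | IsPath T P ∧ ∃ σ : List Bool, IsInit σ P ∧ ∀ Q : ℕ → Bool, IsPath T Q → IsInit σ Q → Q = P}

/-- the lexicographic order: `P n = 0` and `Q n = 1` at the first `n` where `P` and `Q` differ -/
def LexLT (P Q : ℕ → Bool) : Prop := ∃ n : ℕ, (∀ i < n, P i = Q i) ∧ P n = false ∧ Q n = true

theorem isInit_iff (σ : List Bool) (P : ℕ → Bool) :
    IsInit σ P ↔ List.ofFn (fun i : Fin σ.length => P i) = σ := by
  constructor
  · intro h
    conv_rhs => rw [← List.ofFn_get σ]
    exact congrArg List.ofFn (funext fun i => (h i).symm)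
  · intro h i
    have h2 : List.ofFn (fun i : Fin σ.length => P i) = List.ofFn σ.get := by rw [h, List.ofFn_get]
    exact (congrFun (List.ofFn_injective h2) i).symm

theorem isPath_iff (T : Set (List Bool)) (P : ℕ → Bool) :
    IsPath T P ↔ ∀ n : ℕ, List.ofFn (fun i : Fin n => P i) ∈ T := by
  constructor
  · intro h n
    apply h
    intro i
    simp
  · intro h σ hσ
    have := h σ.length
    rwa [(isInit_iff σ P).1 hσ] at this

/-- There is a computable scattered linear order (domain `D`, a computable subset of `ℕ`, strict order `R`)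
that is isomorphic to the order of the isolated paths of no PAC tree. -/
theorem result :
    ∃ (D : Set ℕ) (R : ℕ → ℕ → Prop),
      ComputablePred (fun n : ℕ => n ∈ D) ∧ ComputablePred (fun p : ℕ × ℕ => R p.1 p.2) ∧
      (∀ x ∈ D, ¬ R x x) ∧ (∀ x ∈ D, ∀ y ∈ D, ∀ z ∈ D, R x y → R y z → R x z) ∧
      (∀ x ∈ D, ∀ y ∈ D, R x y ∨ x = y ∨ R y x) ∧
      IsEmpty ((fun q r : ℚ => q < r) ↪r (fun x y : D => R x y)) ∧
      ∀ T : Set (List Bool), IsPAC T →
        IsEmpty ((fun x y : D => R x y) ≃r (fun P Q : isolatedPaths T => LexLT P Q)) := by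
  classical
  refine ⟨Pool.Agent.PAC.D0, Pool.Agent.PAC.R0, Pool.Agent.PAC.D0_comp, Pool.Agent.PAC.R0_comp,
    fun x _ => Pool.Agent.PAC.R0_irrefl x, fun x _ y _ z _ h1 h2 => Pool.Agent.PAC.R0_trans h1 h2, ?_, ?_, ?_⟩
  · intro x _ y _
    by_cases h : x = y
    · exact Or.inr (Or.inl h)
    · rcases Pool.Agent.PAC.R0_total h with h | h
      · exact Or.inl h
      · exact Or.inr (Or.inr h)
  · refine ⟨fun e => Pool.Agent.PAC.D0_scattered ⟨fun q => (e q : ℕ), fun q => (e q).2, fun q r h => ?_⟩⟩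
    exact e.map_rel_iff.2 h
  · intro T hT
    refine ⟨fun e => ?_⟩
    obtain ⟨φ, hφ⟩ : ∃ φ : ℕ → ℕ → Bool, ∀ x (hx : x ∈ Pool.Agent.PAC.D0), φ x = (e ⟨x, hx⟩ : ℕ → Bool) :=
      ⟨fun y => if hy : y ∈ Pool.Agent.PAC.D0 then (e ⟨y, hy⟩ : ℕ → Bool) else fun _ => false, fun x hx =>
        dif_pos hx⟩
    refine Pool.Agent.PAC.not_represented T hT.comp
      (fun σ τ h => hT.tree σ (σ ++ τ) h (List.prefix_append σ τ)) ?_
      (fun f hf => hT.paths f ((isPath_iff T f).2 hf)) φ ?_ ?_ ?_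
    · intro σ hσ
      rcases hT.noDeadEnd σ hσ with h | h
      · exact ⟨false, h⟩
      · exact ⟨true, h⟩
    · intro x hx
      rw [hφ x hx]
      obtain ⟨h1, σ, h2, h3⟩ := (e ⟨x, hx⟩).2
      exact ⟨(isPath_iff T _).1 h1, σ, (isInit_iff σ _).1 h2, fun h hh hs =>
        h3 h ((isPath_iff T h).2 hh) ((isInit_iff σ h).2 hs)⟩
    · rintro g ⟨h1, σ, h2, h3⟩
      have hg : g ∈ isolatedPaths T :=
        ⟨(isPath_iff T g).2 h1, σ, (isInit_iff σ g).2 h2, fun Q hQ hs =>
          h3 Q ((isPath_iff T Q).1 hQ) ((isInit_iff σ Q).1 hs)⟩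
      have hx := (e.symm ⟨g, hg⟩).2
      refine ⟨(e.symm ⟨g, hg⟩).1, hx, ?_⟩
      rw [hφ _ hx]
      have h4 : e ⟨(e.symm ⟨g, hg⟩).1, hx⟩ = ⟨g, hg⟩ := e.apply_symm_apply ⟨g, hg⟩
      rw [h4]
    · intro x hx y hy
      rw [hφ x hx, hφ y hy]
      exact (e.map_rel_iff (a := ⟨x, hx⟩) (b := ⟨y, hy⟩)).symm

end Pool.Agent.Results.MP_d52dcb_lc.ScatteredNotPAC
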